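import Mathlib
import Pool.Agent.Helper20.FF.Complete
import Pool.Agent.Helper77.FF.Sound

/-!
# Largest non-`h`-spanning subsets of cyclic groups: the complete classification

For all `n ≥ 1` and `h ≥ 3` the subsets `A` of `ZMod n` with `|A| = v₁(n,h)` and `hA ≠ ZMod n` are
described: they are exactly the sets of the family `Family h n` (progressions, progressions with a
hole, two more families for `h = 3`, one sporadic set for `h = 4`, full preimages, and a
quasi-periodic step). If `n` has a divisor which is not `0` or `1` modulo `h`, then only full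
preimages of progressions occur; otherwise `v₁(n,h) = ⌊n/h⌋`.
-/

set_option autoImplicit false

namespace Pool.Agent.Results.MP_ff195a_co.Classification

/-- The `h`-fold sumset `hA`: all sums `f 0 + ... + f (h-1)` with summands in `A`. -/
def sumset {n : ℕ} (h : ℕ) (A : Finset (ZMod n)) : Set (ZMod n) :=
  {x | ∃ f : Fin h → ZMod n, (∀ i, f i ∈ A) ∧ ∑ i, f i = x}

/-- `v₁(n,h) = max {(⌊(d-2)/h⌋ + 1) n/d : d ∣ n}` (the divisor `d = 1` contributes `0`). -/
def v₁ (n h : ℕ) : ℕ := n.divisors.sup (fun d => if d = 1 then 0 else ((d - 2) / h + 1) * (n / d))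

/-- **The family of extremal sets.** `Family h n A` says that the subset `A` of `ZMod n` is obtained
by one of the following rules; each rule is used only if the new set has `v₁(n,h)` elements. -/
inductive Family (h : ℕ) : (n : ℕ) → Set (ZMod n) → Prop
  /-- the empty set in the trivial group -/
  | empty : Family h 1 ∅
  /-- progressions with `⌊(n-2)/h⌋ + 1` terms and unit difference -/
  | progression (n : ℕ) (a δ : ZMod n) : 2 ≤ n → (n - 2) / h + 1 = v₁ n h → IsUnit δ →
      Family h n {x | ∃ i : ℕ, i ≤ (n - 2) / h ∧ x = a + i * δ}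
  /-- progressions with a hole modulo a divisor `m` of `n`, `m ≥ h (k+1)`: the classes
  `a, a + δ, ..., a + (k-1)δ` modulo `m`, the class `a + kδ` without one element `u`, and one
  element `v` of the class `a + (k+1)δ`; for `m = n` these are the sets
  `{a, ..., a + (k-1)δ} ∪ {a + (k+1)δ}` -/
  | hole (n m k : ℕ) (hm : m ∣ n) (a δ : ZMod m) (u v : ZMod n) : h * (k + 1) ≤ m →
      (k + 1) * (n / m) = v₁ n h → IsUnit δ →
      ZMod.castHom hm (ZMod m) u = a + k * δ → ZMod.castHom hm (ZMod m) v = a + (k + 1) * δ →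
      Family h n {x | (∃ i : ℕ, i < k ∧ ZMod.castHom hm (ZMod m) x = a + i * δ) ∨
        (ZMod.castHom hm (ZMod m) x = a + k * δ ∧ x ≠ u) ∨ x = v}
  /-- `h = 3`, `n = 3k+1`: a progression with both next-to-end elements removed -/
  | threeFirst (n k : ℕ) (a δ : ZMod n) : h = 3 → n = 3 * k + 1 → 2 ≤ k → v₁ n h = k →
      IsUnit δ →
      Family h n {x | x = a ∨ (∃ i : ℕ, 2 ≤ i ∧ i < k ∧ x = a + i * δ) ∨ x = a + (k + 1) * δ}
  /-- `h = 3`, `n = 3k+1`: the progression `0, ..., k+1` without `k-2` and `k` -/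
  | threeSecond (n k : ℕ) (a δ : ZMod n) : h = 3 → n = 3 * k + 1 → 2 ≤ k → v₁ n h = k →
      IsUnit δ →
      Family h n {x | (∃ i : ℕ, i + 3 ≤ k ∧ x = a + i * δ) ∨ x = a + (k - 1) * δ ∨
        x = a + (k + 1) * δ}
  /-- one sporadic set up to affine maps, for `h = 4`, `n = 13` -/
  | sporadic (a δ : ZMod 13) : h = 4 → IsUnit δ →
      Family h 13 {x | x = a ∨ x = a + δ ∨ x = a + 4 * δ}
  /-- full preimages under the reduction modulo a proper divisor `d` of `n` -/
  | preimage (n d : ℕ) (hd : d ∣ n) (B : Set (ZMod d)) : d < n → v₁ d h * (n / d) = v₁ n h →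
      Family h d B → Family h n {x | ZMod.castHom hd (ZMod d) x ∈ B}
  /-- the quasi-periodic step, `n = m t` with `m = h q + 1`, `q ≥ 1`: the classes
  `g + δ, ..., g + qδ` modulo `m` and the copy `g + m B`, in the class of `g` modulo `m`, of a set
  `B` of the family in `ZMod t` -/
  | step (n m t q : ℕ) (hmt : m * t = n) (δ : ZMod m) (g : ZMod n) (B : Set (ZMod t)) :
      m = h * q + 1 → 1 ≤ q → q * t + v₁ t h = v₁ n h → IsUnit δ → Family h t B →
      Family h n {x | (∃ i : ℕ, 1 ≤ i ∧ i ≤ q ∧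
        ZMod.castHom (Dvd.intro t hmt) (ZMod m) (x - g) = i * δ) ∨
        ∃ y ∈ B, x = g + ((m * y.val : ℕ) : ZMod n)}

theorem to_family {h n : ℕ} {A : Set (ZMod n)} (hA : Family h n A) :
    Pool.Agent.Helper20.FF.Family h n A := by
  induction hA with
  | empty => exact .empty
  | progression n a δ h1 h2 h3 => exact .progression n a δ h1 h2 h3
  | hole n m k hm a δ u v h1 h2 h3 h4 h5 => exact .hole n m k hm a δ u v h1 h2 h3 h4 h5
  | threeFirst n k a δ h1 h2 h3 h4 h5 => exact .threeFirst n k a δ h1 h2 h3 h4 h5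
  | threeSecond n k a δ h1 h2 h3 h4 h5 => exact .threeSecond n k a δ h1 h2 h3 h4 h5
  | sporadic a δ h1 h2 => exact .sporadic a δ h1 h2
  | preimage n d hd B h1 h2 _ ih => exact .preimage n d hd B h1 h2 ih
  | step n m t q hmt δ g B h1 h2 h3 h4 _ ih => exact .step n m t q hmt δ g B h1 h2 h3 h4 ih

theorem of_family {h n : ℕ} {A : Set (ZMod n)} (hA : Pool.Agent.Helper20.FF.Family h n A) :
    Family h n A := by
  induction hA with
  | empty => exact .empty
  | progression n a δ h1 h2 h3 => exact .progression n a δ h1 h2 h3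
  | hole n m k hm a δ u v h1 h2 h3 h4 h5 => exact .hole n m k hm a δ u v h1 h2 h3 h4 h5
  | threeFirst n k a δ h1 h2 h3 h4 h5 => exact .threeFirst n k a δ h1 h2 h3 h4 h5
  | threeSecond n k a δ h1 h2 h3 h4 h5 => exact .threeSecond n k a δ h1 h2 h3 h4 h5
  | sporadic a δ h1 h2 => exact .sporadic a δ h1 h2
  | preimage n d hd B h1 h2 _ ih => exact .preimage n d hd B h1 h2 ih
  | step n m t q hmt δ g B h1 h2 h3 h4 _ ih => exact .step n m t q hmt δ g B h1 h2 h3 h4 ih

open Pool.Agent.Helper20.Span Pool.Agent.Helper20.FF in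
/-- **Complete description** of the sets with `|A| = v₁(n,h)` and `hA ≠ ZMod n`, `h ≥ 3`. -/
theorem result (n h : ℕ) [NeZero n] (hh : 3 ≤ h) (A : Finset (ZMod n)) :
    ((A.card = v₁ n h ∧ sumset h A ≠ Set.univ) ↔ Classification.Family h n (A : Set (ZMod n))) ∧
    ((∃ e, e ∣ n ∧ e % h ≠ 0 ∧ e % h ≠ 1) →
      ((A.card = v₁ n h ∧ sumset h A ≠ Set.univ) ↔
        ∃ (d : ℕ) (hdn : d ∣ n) (a δ : ZMod d), 2 ≤ d ∧
          ((d - 2) / h + 1) * (n / d) = v₁ n h ∧ IsUnit δ ∧
          ∀ x : ZMod n, x ∈ A ↔ ∃ i : ℕ, i ≤ (d - 2) / h ∧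
            ZMod.castHom hdn (ZMod d) x = a + i * δ)) ∧
    ((∀ e, e ∣ n → e % h = 0 ∨ e % h = 1) → v₁ n h = n / h) := by
  classical
  obtain ⟨m, rfl⟩ : ∃ m, h = m + 1 := ⟨h - 1, by omega⟩
  have hs : sumset (m + 1) A ≠ Set.univ ↔ ns A (m + 1) ≠ Finset.univ := by
    have h1 : sumset (m + 1) A = ((ns A (m + 1) : Finset (ZMod n)) : Set (ZMod n)) := by
      ext x
      rw [Finset.mem_coe, mem_ns_iff]
      rfl
    rw [h1, ← Finset.coe_univ, Ne, Ne, Finset.coe_inj]
  have hv1 : v₁ n (m + 1) = v1 n (m + 1) := rfl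
  rw [hs, hv1]
  refine ⟨⟨?_, ?_⟩, ?_, ?_⟩
  · rintro ⟨h1, h2⟩
    apply of_family
    apply complete (m + 1) hh n (NeZero.pos n) A h1
    by_contra hcon
    push Not at hcon
    exact h2 (Finset.eq_univ_iff_forall.2 hcon)
  · intro hF'
    have hF := to_family hF'
    refine ⟨family_card hh hF (NeZero.pos n) A (fun x => by rw [Finset.mem_coe]), ?_⟩
    obtain ⟨x, hx⟩ := Pool.Agent.Helper77.FF.sound hh (NeZero.pos n) (family_ext hF)
    intro hcon
    have h1 : x ∈ ns A (m + 1) := by rw [hcon]; exact Finset.mem_univ _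
    rw [mem_ns_iff] at h1
    obtain ⟨f, hf, hfx⟩ := h1
    exact hx f (fun i => Finset.mem_coe.2 (hf i)) hfx
  · rintro ⟨e, hen, he0, he1⟩
    constructor
    · rintro ⟨h1, h2⟩
      exact forward n (by omega) (dens n hen he0 he1) h1 h2
    · intro h1
      exact backward n h1
  · intro ht
    obtain ⟨k, ε, hn, hε⟩ := tame_decomp (h := m + 1) ht
    have hv := v1_tame hh ht (NeZero.pos n) hn hε
    rw [hv]
    have h2 : n = ε + (m + 1) * k := by omega
    rw [h2, Nat.add_mul_div_left _ _ (by omega), Nat.div_eq_of_lt (by omega), zero_add]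

end Pool.Agent.Results.MP_ff195a_co.Classification
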